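import Pool.Agent.Helper28_TP.DyS

/-!
# DYA: collections of dyadic blocks
-/

set_option autoImplicit false

namespace Pool.Agent.TP.H68

open Finset

/-- Collections of pairwise disjoint blocks inside the block `(n, j)`. -/
def GoodR (n j : ℕ) (𝒥 : Finset (ℕ × ℕ)) : Prop :=
  (∀ J ∈ 𝒥, J.1 ≤ n ∧ j * 2 ^ n ≤ J.2 * 2 ^ J.1 ∧ (J.2 + 1) * 2 ^ J.1 ≤ (j + 1) * 2 ^ n) ∧
  ∀ J ∈ 𝒥, ∀ J' ∈ 𝒥, J ≠ J' →
    (J.2 + 1) * 2 ^ J.1 ≤ J'.2 * 2 ^ J'.1 ∨ (J'.2 + 1) * 2 ^ J'.1 ≤ J.2 * 2 ^ J.1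

/-- Recursive enumeration of the collections. -/
def GF : ℕ → ℕ → Finset (Finset (ℕ × ℕ))
  | 0, j => {∅, {(0, j)}}
  | n + 1, j => insert {(n + 1, j)}
      ((GF n (2 * j) ×ˢ GF n (2 * j + 1)).image (fun x => x.1 ∪ x.2))

theorem card_GF (n : ℕ) : ∀ j, (GF n j).card + 1 ≤ 3 ^ 2 ^ n := by
  induction n with
  | zero =>
    intro j
    have : (GF 0 j).card ≤ 2 := by
      unfold GF
      exact card_le_two
    simp only [pow_zero, pow_one]
    omega
  | succ n ih =>
    intro j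
    have h1 := ih (2 * j)
    have h2 := ih (2 * j + 1)
    have h3 : (GF (n + 1) j).card ≤ (GF n (2 * j)).card * (GF n (2 * j + 1)).card + 1 := by
      have := card_image_le (s := GF n (2 * j) ×ˢ GF n (2 * j + 1)) (f := fun x => x.1 ∪ x.2)
      rw [card_product] at this
      have h0 : GF (n + 1) j = insert {(n + 1, j)}
        ((GF n (2 * j) ×ˢ GF n (2 * j + 1)).image (fun x => x.1 ∪ x.2)) := rfl
      rw [h0]
      refine (card_insert_le _ _).trans ?_
      omega
    have h4 : 3 ^ 2 ^ (n + 1) = (3 ^ 2 ^ n) * (3 ^ 2 ^ n) := by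
      rw [← pow_add]; congr 1; rw [pow_succ]; ring
    have h5 : 3 ≤ 3 ^ 2 ^ n := by
      calc 3 = 3 ^ 1 := by norm_num
        _ ≤ 3 ^ 2 ^ n := Nat.pow_le_pow_right (by norm_num) Nat.one_le_two_pow
    rw [h4]
    generalize 3 ^ 2 ^ n = T at *
    obtain ⟨T', rfl⟩ : ∃ T', T = T' + 1 := ⟨T - 1, by omega⟩
    have h6 : (GF n (2 * j)).card * (GF n (2 * j + 1)).card ≤ T' * T' :=
      Nat.mul_le_mul (by omega) (by omega)
    nlinarith

theorem mem_GF (n : ℕ) : ∀ j 𝒥, GoodR n j 𝒥 → 𝒥 ∈ GF n j := by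
  induction n with
  | zero =>
    intro j 𝒥 h
    have hJ : ∀ J ∈ 𝒥, J = (0, j) := by
      intro J hJ
      obtain ⟨h1, h2, h3⟩ := h.1 J hJ
      have h0 : J.1 = 0 := by omega
      rw [h0] at h2 h3
      simp only [pow_zero, mul_one] at h2 h3
      exact Prod.ext h0 (by simp only; omega)
    unfold GF
    rcases 𝒥.eq_empty_or_nonempty with he | ⟨J, hJ'⟩
    · simp [he]
    · have : 𝒥 = {(0, j)} := by
        ext x
        simp only [mem_singleton]
        constructor
        · exact hJ x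
        · rintro rfl
          rw [← hJ J hJ']; exact hJ'
      simp [this]
  | succ n ih =>
    intro j 𝒥 h
    unfold GF
    rw [mem_insert]
    by_cases hr : (n + 1, j) ∈ 𝒥
    · left
      ext x
      simp only [mem_singleton]
      constructor
      · intro hx
        by_contra hne
        obtain ⟨h1, h2, h3⟩ := h.1 x hx
        have hp : 0 < 2 ^ x.1 := by positivity
        rcases h.2 _ hr x hx (Ne.symm hne) with h4 | h4
        · simp only at h4
          nlinarith
        · simp only at h4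
          nlinarith
      · rintro rfl; exact hr
    · right
      have hle : ∀ J ∈ 𝒥, J.1 ≤ n := by
        intro J hJ
        obtain ⟨h1, h2, h3⟩ := h.1 J hJ
        by_contra hc
        have h0 : J.1 = n + 1 := by omega
        rw [h0] at h2 h3
        have hp : 0 < 2 ^ (n + 1) := by positivity
        have h4 : j ≤ J.2 := Nat.le_of_mul_le_mul_right h2 hp
        have h5 : J.2 + 1 ≤ j + 1 := Nat.le_of_mul_le_mul_right h3 hp
        apply hr
        have : J = (n + 1, j) := Prod.ext h0 (by simp only; omega)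
        rw [← this]; exact hJ
      rw [mem_image]
      refine ⟨(𝒥.filter (fun J => J.2 * 2 ^ J.1 < (2 * j + 1) * 2 ^ n),
        𝒥.filter (fun J => ¬ J.2 * 2 ^ J.1 < (2 * j + 1) * 2 ^ n)), ?_, ?_⟩
      · rw [mem_product]
        constructor
        · apply ih
          refine ⟨?_, fun J hJ J' hJ' => h.2 J (mem_filter.1 hJ).1 J' (mem_filter.1 hJ').1⟩
          intro J hJ
          rw [mem_filter] at hJ
          obtain ⟨hJ, hlt⟩ := hJ
          obtain ⟨h1, h2, h3⟩ := h.1 J hJ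
          refine ⟨hle J hJ, ?_, ?_⟩
          · rw [pow_succ] at h2; nlinarith
          · have e : (2 * j + 1) * 2 ^ n = (2 * j + 1) * 2 ^ (n - J.1) * 2 ^ J.1 := by
              rw [mul_assoc, ← pow_add, Nat.sub_add_cancel (hle J hJ)]
            rw [e] at hlt ⊢
            have hp : 0 < 2 ^ J.1 := by positivity
            have h4 : J.2 < (2 * j + 1) * 2 ^ (n - J.1) := Nat.lt_of_mul_lt_mul_right hlt
            exact Nat.mul_le_mul_right _ h4
        · apply ih
          refine ⟨?_, fun J hJ J' hJ' => h.2 J (mem_filter.1 hJ).1 J' (mem_filter.1 hJ').1⟩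
          intro J hJ
          rw [mem_filter] at hJ
          obtain ⟨hJ, hlt⟩ := hJ
          obtain ⟨h1, h2, h3⟩ := h.1 J hJ
          refine ⟨hle J hJ, by omega, ?_⟩
          rw [pow_succ] at h3; nlinarith
      · simp only
        exact filter_union_filter_not_eq _ _

theorem dya : DyaStmt := by
  classical
  intro A
  constructor
  · intro 𝒞 h𝒞
    have h1 : 𝒞 ⊆ GF A 1 := by
      intro 𝒥 h𝒥
      apply mem_GF
      obtain ⟨h1, h2⟩ := h𝒞 𝒥 h𝒥
      refine ⟨fun J hJ => ?_, h2⟩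
      obtain ⟨h3, h4, h5⟩ := h1 J hJ
      refine ⟨h3, by simpa using h4, ?_⟩
      rw [pow_succ] at h5; omega
    have h2 := card_le_card h1
    have h3 := card_GF A 1
    omega
  · intro bad
    let 𝒥 : Finset (ℕ × ℕ) := (range (A + 1) ×ˢ range (2 ^ (A + 1))).filter (fun J =>
      2 ^ A ≤ J.2 * 2 ^ J.1 ∧ (J.2 + 1) * 2 ^ J.1 ≤ 2 ^ (A + 1) ∧ bad J.1 J.2 ∧
        ∀ a' ≤ A, J.1 < a' → ¬ bad a' (J.2 / 2 ^ (a' - J.1)))
    have hmem : ∀ J, J ∈ 𝒥 ↔ (J.1 < A + 1 ∧ J.2 < 2 ^ (A + 1)) ∧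
      (2 ^ A ≤ J.2 * 2 ^ J.1 ∧ (J.2 + 1) * 2 ^ J.1 ≤ 2 ^ (A + 1) ∧ bad J.1 J.2 ∧
        ∀ a' ≤ A, J.1 < a' → ¬ bad a' (J.2 / 2 ^ (a' - J.1))) := by
      intro J
      simp only [𝒥, mem_filter, mem_product, mem_range]
    have key : ∀ J ∈ 𝒥, ∀ J' ∈ 𝒥, J ≠ J' → J.1 ≤ J'.1 →
        (J.2 + 1) * 2 ^ J.1 ≤ J'.2 * 2 ^ J'.1 ∨ (J'.2 + 1) * 2 ^ J'.1 ≤ J.2 * 2 ^ J.1 := by
      intro J hJ J' hJ' hne hle
      rw [hmem] at hJ hJ'
      have e : ∀ x, x * 2 ^ J'.1 = x * 2 ^ (J'.1 - J.1) * 2 ^ J.1 := by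
        intro x; rw [mul_assoc, ← pow_add, Nat.sub_add_cancel hle]
      rw [e, e]
      by_cases h1 : J.2 < J'.2 * 2 ^ (J'.1 - J.1)
      · left; exact Nat.mul_le_mul_right _ h1
      · by_cases h2 : (J'.2 + 1) * 2 ^ (J'.1 - J.1) ≤ J.2
        · right; exact Nat.mul_le_mul_right _ h2
        · exfalso
          have h3 : J.2 / 2 ^ (J'.1 - J.1) = J'.2 := by
            apply Nat.div_eq_of_lt_le
            · omega
            · omega
          rcases Nat.eq_or_lt_of_le hle with h4 | h4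
          · apply hne
            rw [h4, Nat.sub_self, pow_zero, Nat.div_one] at h3
            exact Prod.ext h4 h3
          · have h5 := hJ.2.2.2.2 J'.1 (by omega) h4
            rw [h3] at h5
            exact h5 hJ'.2.2.2.1
    refine ⟨𝒥, ⟨?_, ?_⟩, ?_, ?_⟩
    · intro J hJ
      rw [hmem] at hJ
      exact ⟨by omega, hJ.2.1, hJ.2.2.1⟩
    · intro J hJ J' hJ' hne
      rcases le_total J.1 J'.1 with h | h
      · exact key J hJ J' hJ' hne h
      · exact (key J' hJ' J hJ (Ne.symm hne) h).symm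
    · intro J hJ
      rw [hmem] at hJ
      exact hJ.2.2.2.1
    · intro q hq hex
      rw [mem_Ico] at hq
      obtain ⟨a, ha, hmax⟩ : ∃ a, (a ≤ A ∧ bad a (q / 2 ^ a)) ∧
          ∀ a', a' ≤ A → a < a' → ¬ bad a' (q / 2 ^ a') := by
        let S := (range (A + 1)).filter (fun a => bad a (q / 2 ^ a))
        have hS : S.Nonempty := by
          obtain ⟨a, ha, hb⟩ := hex
          exact ⟨a, by simp only [S, mem_filter, mem_range]; exact ⟨by omega, hb⟩⟩
        refine ⟨S.max' hS, ?_, ?_⟩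
        · have hm : S.max' hS ∈ (range (A + 1)).filter (fun a => bad a (q / 2 ^ a)) :=
            S.max'_mem hS
          rw [mem_filter, mem_range] at hm
          exact ⟨by omega, hm.2⟩
        · intro a' ha' hlt hb
          have : a' ∈ S := by
            simp only [S, mem_filter, mem_range]; exact ⟨by omega, hb⟩
          have := S.le_max' a' this
          omega
      have hp : 0 < 2 ^ a := by positivity
      have h1 : q / 2 ^ a * 2 ^ a ≤ q := Nat.div_mul_le_self _ _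
      have h2 : q < (q / 2 ^ a + 1) * 2 ^ a := by
        have := Nat.lt_div_mul_add (a := q) hp
        rw [add_mul, one_mul]; exact this
      refine ⟨(a, q / 2 ^ a), ?_, h1, h2⟩
      rw [hmem]
      have e1 : 2 ^ A = 2 ^ (A - a) * 2 ^ a := by
        rw [← pow_add, Nat.sub_add_cancel ha.1]
      have e2 : 2 ^ (A + 1) = 2 ^ (A + 1 - a) * 2 ^ a := by
        rw [← pow_add, Nat.sub_add_cancel (by omega)]
      have h3 : 2 ^ (A - a) ≤ q / 2 ^ a := by
        rw [Nat.le_div_iff_mul_le hp, ← e1]; exact hq.1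
      have h4 : q / 2 ^ a < 2 ^ (A + 1 - a) := by
        rw [Nat.div_lt_iff_lt_mul hp, ← e2]; exact hq.2
      refine ⟨⟨by simp only; omega, ?_⟩, ?_, ?_, ha.2, ?_⟩
      · simp only
        exact lt_of_le_of_lt (Nat.div_le_self _ _) hq.2
      · simp only; rw [e1]; exact Nat.mul_le_mul_right _ h3
      · simp only; rw [e2]; exact Nat.mul_le_mul_right _ h4
      · intro a' ha' hlt
        simp only at hlt ⊢
        rw [Nat.div_div_eq_div_mul, ← pow_add, Nat.add_sub_cancel' hlt.le]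
        exact hmax a' ha' hlt

end Pool.Agent.TP.H68
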