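import Pool.Agent.Helper28_TP.DyS

/-!
# SEQ: consecutive conditional events, and REFB: number of bad blocks of one level
-/

set_option autoImplicit false

namespace Pool.Agent.TP.H68

open MeasureTheory ProbabilityTheory

variable {k : ℕ}

instance instStep (s : ℝ) : IsProbabilityMeasure (stepLaw k s) := by
  unfold stepLaw; infer_instance

instance instWalk (s : ℝ) : IsProbabilityMeasure (walkLaw k s) := by
  unfold walkLaw; infer_instance

instance instIco : IsProbabilityMeasure (volume.restrict (Set.Ico (0 : ℝ) 1)) := by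
  constructor
  rw [Measure.restrict_apply_univ, Real.volume_Ico]
  simp

instance instUnif : IsProbabilityMeasure (unif k) := by
  unfold unif; infer_instance

instance instMark (s : ℝ) : IsProbabilityMeasure (markLaw k s) := by
  unfold markLaw; infer_instance

instance instConf (lam s : ℝ) : IsProbabilityMeasure (confLaw k lam s) := by
  unfold confLaw; infer_instance

theorem glue_glue {T₁ T : ℕ} (h : T₁ ≤ T) (ω ω₂ : Cf k) : glue T₁ (glue T (ω, ω₂), ω) = ω := by
  unfold glue
  funext z
  refine Prod.ext rfl ?_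
  funext j
  refine Prod.ext rfl ?_
  funext i
  simp only
  by_cases h1 : i < T₁
  · rw [if_pos h1, if_pos (lt_of_lt_of_le h1 h)]
  · rw [if_neg h1]

/-- Events determined by the steps before time `T₁` are determined by the steps before `T`. -/
theorem glue_inv {T₁ T : ℕ} (h : T₁ ≤ T) (E : Set (Cf k))
    (hE : ∀ ω ω₂, glue T₁ (ω, ω₂) ∈ E ↔ ω ∈ E) (ω ω₂ : Cf k) :
    glue T (ω, ω₂) ∈ E ↔ ω ∈ E := by
  rw [← hE (glue T (ω, ω₂)) ω, glue_glue h]

theorem seq (hG : GlueStmt) : SeqStmt := by
  intro k lam s π hπ T E hT hE h1 h2 n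
  induction n with
  | zero =>
    simp
  | succ n ih =>
    have hmA : MeasurableSet {ω : Cf k | ∀ j < n, ω ∈ E j} := by
      have : {ω : Cf k | ∀ j < n, ω ∈ E j} = ⋂ j ∈ Finset.range n, E j := by
        ext ω; simp
      rw [this]
      exact Finset.measurableSet_biInter _ fun j _ => hE j
    have hmA' : MeasurableSet {ω : Cf k | ∀ j < n + 1, ω ∈ E j} := by
      have : {ω : Cf k | ∀ j < n + 1, ω ∈ E j} = ⋂ j ∈ Finset.range (n + 1), E j := by
        ext ω; simp
      rw [this]
      exact Finset.measurableSet_biInter _ fun j _ => hE j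
    have hg := hG k lam s (T n)
    have e1 : confLaw k lam s {ω | ∀ j < n + 1, ω ∈ E j} =
        ((confLaw k lam s).prod (confLaw k lam s))
          {x | x.1 ∈ {ω : Cf k | ∀ j < n, ω ∈ E j} ∧ glue (T n) x ∈ E n} := by
      rw [← hg.measure_preimage hmA'.nullMeasurableSet]
      congr 1
      ext ⟨ω, ω₂⟩
      simp only [Set.mem_preimage, Set.mem_ofPred_eq]
      constructor
      · intro h
        refine ⟨fun j hj => ?_, h n (by omega)⟩
        exact (glue_inv (hT (by omega : j + 1 ≤ n)) (E j) (h1 j) ω ω₂).1 (h j (by omega))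
      · rintro ⟨h3, h4⟩ j hj
        rcases Nat.lt_succ_iff_lt_or_eq.1 hj with h5 | h5
        · exact (glue_inv (hT (by omega : j + 1 ≤ n)) (E j) (h1 j) ω ω₂).2 (h3 j h5)
        · rw [h5]; exact h4
    have hmB : MeasurableSet {x : Cf k × Cf k | x.1 ∈ {ω : Cf k | ∀ j < n, ω ∈ E j} ∧
        glue (T n) x ∈ E n} :=
      (measurable_fst hmA).inter (hg.measurable (hE n))
    have e2 : confLaw k lam s {ω | ∀ j < n + 1, ω ∈ E j} ≤
        ENNReal.ofReal π * confLaw k lam s {ω | ∀ j < n, ω ∈ E j} := by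
      rw [e1, Measure.prod_apply hmB]
      calc ∫⁻ ω₁, confLaw k lam s (Prod.mk ω₁ ⁻¹' {x : Cf k × Cf k |
            x.1 ∈ {ω : Cf k | ∀ j < n, ω ∈ E j} ∧ glue (T n) x ∈ E n}) ∂(confLaw k lam s)
          ≤ ∫⁻ ω₁, ({ω : Cf k | ∀ j < n, ω ∈ E j}).indicator (fun _ => ENNReal.ofReal π) ω₁
            ∂(confLaw k lam s) := by
            refine lintegral_mono fun ω₁ => ?_
            by_cases h3 : ω₁ ∈ {ω : Cf k | ∀ j < n, ω ∈ E j}
            · rw [Set.indicator_of_mem h3]
              have h4 := h2 n ω₁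
              have h5 : confLaw k lam s (Prod.mk ω₁ ⁻¹' {x : Cf k × Cf k |
                  x.1 ∈ {ω : Cf k | ∀ j < n, ω ∈ E j} ∧ glue (T n) x ∈ E n}) ≤
                  confLaw k lam s {ω₂ | glue (T n) (ω₁, ω₂) ∈ E n} :=
                measure_mono fun ω₂ h => h.2
              refine h5.trans ?_
              rw [measureReal_def] at h4
              exact (ENNReal.le_ofReal_iff_toReal_le (measure_ne_top _ _) hπ).2 h4
            · rw [Set.indicator_of_notMem h3]
              have : (Prod.mk ω₁ ⁻¹' {x : Cf k × Cf k |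
                  x.1 ∈ {ω : Cf k | ∀ j < n, ω ∈ E j} ∧ glue (T n) x ∈ E n}) = ∅ := by
                ext ω₂
                simp only [Set.mem_preimage, Set.mem_ofPred_eq, Set.mem_empty_iff_false, iff_false]
                rintro ⟨h6, -⟩
                exact h3 h6
              rw [this]; simp
        _ = ENNReal.ofReal π * confLaw k lam s {ω | ∀ j < n, ω ∈ E j} := by
            rw [lintegral_indicator_const hmA]
    calc (confLaw k lam s).real {ω | ∀ j < n + 1, ω ∈ E j}
        ≤ (ENNReal.ofReal π * confLaw k lam s {ω | ∀ j < n, ω ∈ E j}).toReal := by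
          rw [measureReal_def]
          exact ENNReal.toReal_mono (ENNReal.mul_ne_top ENNReal.ofReal_ne_top
            (measure_ne_top _ _)) e2
      _ = π * (confLaw k lam s).real {ω | ∀ j < n, ω ∈ E j} := by
          rw [ENNReal.toReal_mul, ENNReal.toReal_ofReal hπ, measureReal_def]
      _ ≤ π * π ^ n := mul_le_mul_of_nonneg_left ih hπ
      _ = π ^ (n + 1) := by rw [pow_succ]; ring

/-- Enumeration of a finite set of numbers of the same parity. -/
theorem enum (r : ℕ) (hr : r < 2) (m : ℕ) : ∀ (S : Finset ℕ) (c : ℕ), S.card = m →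
    (∀ j ∈ S, c ≤ j ∧ j % 2 = r) →
    ∃ f : ℕ → ℕ, c ≤ f 0 ∧ (∀ j, f j + 2 ≤ f (j + 1)) ∧ (∀ j, f j % 2 = r) ∧
      ∀ j < m, f j ∈ S := by
  induction m with
  | zero =>
    intro S c _ _
    refine ⟨fun j => 2 * (c + j) + r, by simp only; omega, fun j => by simp only; omega,
      fun j => by simp only; omega, fun j hj => absurd hj (by omega)⟩
  | succ m ih =>
    intro S c hc hS
    have hne : S.Nonempty := Finset.card_pos.1 (by omega)
    have hmin := S.min'_mem hne
    obtain ⟨f, h1, h2, h3, h4⟩ := ih (S.erase (S.min' hne)) (S.min' hne + 2)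
      (by rw [Finset.card_erase_of_mem hmin]; omega) (by
        intro j hj
        rw [Finset.mem_erase] at hj
        have h5 := S.min'_le j hj.2
        have h6 := (hS j hj.2).2
        have h7 := (hS _ hmin).2
        have h8 := hj.1
        refine ⟨?_, h6⟩
        omega)
    refine ⟨fun j => if j = 0 then S.min' hne else f (j - 1), ?_, ?_, ?_, ?_⟩
    · simpa using (hS _ hmin).1
    · intro j
      rcases j with _ | j
      · simpa using h1
      · simpa using h2 j
    · intro j
      rcases j with _ | j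
      · simpa using (hS _ hmin).2
      · simpa using h3 j
    · intro j hj
      rcases j with _ | j
      · simpa using hmin
      · have := h4 j (by omega)
        simp only [Nat.succ_ne_zero, if_false, Nat.add_sub_cancel]
        exact (Finset.mem_erase.1 this).2

theorem refb (hSeq : SeqStmt) : RefbStmt := by
  classical
  intro k lam s π v a τ A hπ hv haA hπv E hE h1 h2
  set n : ℕ := 2 ^ (A - a) with hn
  have hn1 : 2 ^ (A - a + 1) = 2 * n := by rw [hn, pow_succ]; ring
  have hnA : (2 : ℝ) ^ a * n = 2 ^ A := by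
    rw [hn]; push_cast; rw [← pow_add, Nat.add_sub_cancel' haA]
  have hn0 : (0 : ℝ) < n := by rw [hn]; positivity
  -- probability of one set
  have key : ∀ S : Finset ℕ, ∀ r < 2, (∀ j ∈ S, j % 2 = r) →
      (confLaw k lam s).real {ω | ∀ j ∈ S, ω ∈ E j} ≤ π ^ S.card := by
    intro S r hr hS
    obtain ⟨f, -, hf2, -, hf4⟩ := enum r hr S.card S 0 rfl (fun j hj => ⟨by omega, hS j hj⟩)
    have hTm : Monotone (fun j => (f j - 1) * 2 ^ a * τ) := by
      refine monotone_nat_of_le_succ fun j => ?_
      have := hf2 j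
      exact Nat.mul_le_mul_right _ (Nat.mul_le_mul_right _ (by omega))
    have h3 := hSeq k lam s π hπ (fun j => (f j - 1) * 2 ^ a * τ) (fun j => E (f j)) hTm
      (fun j => hE _) (fun j ω ω₂ => by
        refine glue_inv (T₁ := (f j + 1) * 2 ^ a * τ) ?_ (E (f j)) (h1 (f j)) ω ω₂
        have := hf2 j
        exact Nat.mul_le_mul_right _ (Nat.mul_le_mul_right _ (by omega)))
      (fun j ω₁ => h2 (f j) ω₁) S.card
    refine (measureReal_mono ?_).trans h3
    intro ω hω j hj
    exact hω _ (hf4 j hj)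
  obtain ⟨P, hP⟩ : ∃ P : Finset ℕ → Prop, ∀ S, P S ↔
    (v * n / 2 ≤ (S.card : ℝ) ∧ ∃ r < 2, ∀ j ∈ S, j % 2 = r) := ⟨_, fun _ => Iff.rfl⟩
  set F : Finset (Finset ℕ) := ((Finset.Ico n (2 * n)).powerset).filter P with hF
  have hcov : {ω | v * 2 ^ A ≤ 2 ^ a * (((Finset.Ico (2 ^ (A - a))
      (2 ^ (A - a + 1))).filter (fun j => ω ∈ E j)).card : ℝ)} ⊆
      ⋃ S ∈ F, {ω | ∀ j ∈ S, ω ∈ E j} := by
    intro ω hω
    rw [Set.mem_ofPred_eq, hn1, ← hn] at hω
    set B := (Finset.Ico n (2 * n)).filter (fun j => ω ∈ E j) with hB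
    have h3 : v * n ≤ B.card := by
      rw [← hnA] at hω
      have : (0 : ℝ) < 2 ^ a := by positivity
      have h4 : 2 ^ a * (v * n) ≤ 2 ^ a * (B.card : ℝ) := by nlinarith
      exact le_of_mul_le_mul_left h4 this
    have h4 : (B.filter (fun j => j % 2 = 0)).card + (B.filter (fun j => j % 2 = 1)).card =
        B.card := by
      rw [← Finset.card_filter_add_card_filter_not (s := B) (fun j => j % 2 = 0)]
      congr 2
      refine Finset.filter_congr fun j _ => ?_
      omega
    have h5 : ∃ r < 2, v * n / 2 ≤ ((B.filter (fun j => j % 2 = r)).card : ℝ) := by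
      by_contra hc
      push Not at hc
      have h6 := hc 0 (by norm_num)
      have h7 := hc 1 (by norm_num)
      have h8 : ((B.filter (fun j => j % 2 = 0)).card : ℝ) +
        ((B.filter (fun j => j % 2 = 1)).card : ℝ) = B.card := by exact_mod_cast h4
      linarith
    obtain ⟨r, hr, h5⟩ := h5
    rw [Set.mem_iUnion₂]
    refine ⟨B.filter (fun j => j % 2 = r), ?_, ?_⟩
    · rw [hF, Finset.mem_filter, Finset.mem_powerset, hP]
      refine ⟨(Finset.filter_subset _ _).trans (Finset.filter_subset _ _), h5, r, hr, ?_⟩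
      intro j hj
      exact (Finset.mem_filter.1 hj).2
    · intro j hj
      exact (Finset.mem_filter.1 (Finset.mem_filter.1 hj).1).2
  have hone : ∀ S ∈ F, (confLaw k lam s).real {ω | ∀ j ∈ S, ω ∈ E j} ≤
      Real.exp (-(6 * 2 ^ A)) := by
    intro S hS
    rw [hF, Finset.mem_filter, hP] at hS
    obtain ⟨-, h3, r, hr, h4⟩ := hS
    refine (key S r hr h4).trans ?_
    calc π ^ S.card ≤ (Real.exp (-(12 * 2 ^ a / v))) ^ S.card :=
          pow_le_pow_left₀ hπ hπv _
      _ = Real.exp (S.card * (-(12 * 2 ^ a / v))) := by rw [← Real.exp_nat_mul]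
      _ ≤ Real.exp (-(6 * 2 ^ A)) := by
          apply Real.exp_le_exp.2
          have h5 : 6 * 2 ^ A = v * n / 2 * (12 * 2 ^ a / v) := by
            rw [← hnA]; field_simp; ring
          rw [h5]
          have h6 : 0 ≤ 12 * 2 ^ a / v := by positivity
          have := mul_le_mul_of_nonneg_right h3 h6
          linarith
  have hFc : (F.card : ℝ) ≤ 2 ^ n := by
    have h3 : F.card ≤ ((Finset.Ico n (2 * n)).powerset).card := Finset.card_filter_le _ _
    rw [Finset.card_powerset, Nat.card_Ico] at h3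
    have h4 : 2 * n - n = n := by omega
    rw [h4] at h3
    exact_mod_cast h3
  calc (confLaw k lam s).real {ω | v * 2 ^ A ≤ 2 ^ a * (((Finset.Ico (2 ^ (A - a))
      (2 ^ (A - a + 1))).filter (fun j => ω ∈ E j)).card : ℝ)}
      ≤ (confLaw k lam s).real (⋃ S ∈ F, {ω | ∀ j ∈ S, ω ∈ E j}) := measureReal_mono hcov (measure_ne_top _ _)
    _ ≤ ∑ S ∈ F, (confLaw k lam s).real {ω | ∀ j ∈ S, ω ∈ E j} :=
        measureReal_biUnion_finset_le _ _
    _ ≤ ∑ S ∈ F, Real.exp (-(6 * 2 ^ A)) := Finset.sum_le_sum hone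
    _ = F.card * Real.exp (-(6 * 2 ^ A)) := by rw [Finset.sum_const, nsmul_eq_mul]
    _ ≤ 2 ^ n * Real.exp (-(6 * 2 ^ A)) :=
        mul_le_mul_of_nonneg_right hFc (Real.exp_nonneg _)
    _ ≤ Real.exp (2 ^ A) * Real.exp (-(6 * 2 ^ A)) := by
        refine mul_le_mul_of_nonneg_right ?_ (Real.exp_nonneg _)
        have h3 : (2 : ℝ) ≤ Real.exp 1 := by
          have := Real.add_one_le_exp (1 : ℝ); linarith
        calc (2 : ℝ) ^ n ≤ (Real.exp 1) ^ n := pow_le_pow_left₀ (by norm_num) h3 _
          _ = Real.exp n := by rw [← Real.exp_nat_mul, mul_one]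
          _ ≤ Real.exp (2 ^ A) := by
              apply Real.exp_le_exp.2
              have h4 : (1 : ℝ) ≤ 2 ^ a := one_le_pow₀ (by norm_num)
              nlinarith
    _ ≤ Real.exp (-(4 * 2 ^ A)) := by
        rw [← Real.exp_add]
        apply Real.exp_le_exp.2
        have : (0 : ℝ) < 2 ^ A := by positivity
        linarith

end Pool.Agent.TP.H68
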